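import Mathlib
import Pool.Agent.H17.Telg

set_option autoImplicit false

namespace Pool.Agent.Results.MP_4977a6_gt.Neg
open Set Pool.Agent.H17.Ponag

def OpenCover (X : Type) [TopologicalSpace X] (𝒰 : Set (Set X)) : Prop :=
  (∀ U ∈ 𝒰, IsOpen U) ∧ ⋃₀ 𝒰 = univ

def Menger (X : Type) [TopologicalSpace X] : Prop :=
  ∀ 𝒰 : ℕ → Set (Set X), (∀ n, OpenCover X (𝒰 n)) → ∃ ℱ : ℕ → Set (Set X),
    (∀ n, ℱ n ⊆ 𝒰 n ∧ (ℱ n).Finite) ∧ ⋃₀ (⋃ n, ℱ n) = univ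

/-- Bob has a winning strategy in the Menger game. -/
def BobWinsMenger (X : Type) [TopologicalSpace X] : Prop :=
  ∃ σ : List (Set (Set X)) → Set (Set X) → Set (Set X),
    (∀ l 𝒰, (∀ 𝒱 ∈ l, OpenCover X 𝒱) → OpenCover X 𝒰 → σ l 𝒰 ⊆ 𝒰 ∧ (σ l 𝒰).Finite) ∧
    ∀ 𝒰 : ℕ → Set (Set X), (∀ n, OpenCover X (𝒰 n)) →
      ⋃₀ (⋃ n, σ (List.ofFn fun i : Fin n => 𝒰 i) (𝒰 n)) = univ

theorem result : ∃ (X : Type) (_ : TopologicalSpace X), T3Space X ∧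
    Menger X ∧ BobWins X ∧ ¬ BobWinsMenger X := by
  refine ⟨Pool.Agent.H17.Telg.X, inferInstance, inferInstance, fun 𝒰 h => ?_,
    Pool.Agent.H17.Telg.bob, ?_⟩
  · have h1 : ∀ n x, ∃ U ∈ 𝒰 n, ∃ β, Pool.Agent.H17.Telg.N x β ⊆ U := fun n x => by
      obtain ⟨U, hU, hx⟩ := (h n).2.ge (mem_univ x)
      exact ⟨U, hU, (h n).1 U hU x hx⟩
    choose U hU β hβ using h1
    obtain ⟨x, hx⟩ := Pool.Agent.H17.Telg.roth β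
    refine ⟨fun n => {U n (x n)}, fun n => ⟨singleton_subset_iff.2 (hU _ _), finite_singleton _⟩,
      eq_univ_of_forall fun y => ?_⟩
    obtain ⟨n, hn⟩ := hx y
    exact ⟨_, mem_iUnion.2 ⟨n, rfl⟩, hβ _ _ hn⟩
  · rintro ⟨σ, h1, h2⟩
    obtain ⟨𝒰, h3, y, h4⟩ := Pool.Agent.H17.Telg.noP2 σ fun l 𝒰 hl h =>
      h1 l 𝒰 (fun 𝒱 hV => ⟨(hl 𝒱 hV).1, (hl 𝒱 hV).2.1⟩) ⟨h.1, h.2.1⟩
    obtain ⟨U, hU, h5⟩ := (h2 𝒰 fun n => ⟨(h3 n).1, (h3 n).2.1⟩).ge (mem_univ y)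
    obtain ⟨n, hn⟩ := mem_iUnion.1 hU
    exact h4 n U hn h5

end Pool.Agent.Results.MP_4977a6_gt.Neg
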